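import Mathlib

/-! Standard monomials (characters) of a set of points of the cube, over any field of
characteristic different from 2. -/

set_option autoImplicit false
set_option linter.unusedSectionVars false

open Finset

namespace H80SP

section key

variable {V : Type*} [Fintype V] [DecidableEq V]

/-- The weight of a point. -/
noncomputable def wv (v : V) : ℕ := 2 ^ Fintype.card V + 2 ^ (Fintype.equivFin V v : ℕ)

/-- A graded order of the sets, compatible with adding an element. -/
noncomputable def key (S : Finset V) : ℕ := ∑ v ∈ S, wv v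

theorem low_eq (S : Finset V) : ∑ v ∈ S, 2 ^ (Fintype.equivFin V v : ℕ) =
    ∑ k ∈ S.image (fun v => (Fintype.equivFin V v : ℕ)), 2 ^ k := by
  rw [sum_image]
  intro a _ b _ h
  exact (Fintype.equivFin V).injective (Fin.ext h)

theorem low_lt (S : Finset V) : ∑ v ∈ S, 2 ^ (Fintype.equivFin V v : ℕ) < 2 ^ Fintype.card V := by
  rw [low_eq]
  refine Nat.geomSum_lt le_rfl fun k hk => ?_
  obtain ⟨v, -, rfl⟩ := mem_image.1 hk
  exact (Fintype.equivFin V v).2

theorem key_eq (S : Finset V) : key S = S.card * 2 ^ Fintype.card V + ∑ v ∈ S, 2 ^ (Fintype.equivFin V v : ℕ) := by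
  unfold key wv
  rw [sum_add_distrib, sum_const, smul_eq_mul]

theorem key_lt_of_card_lt {S T : Finset V} (h : T.card < S.card) : key T < key S := by
  rw [key_eq, key_eq]
  have h1 := low_lt T
  have h2 : (T.card + 1) * 2 ^ Fintype.card V ≤ S.card * 2 ^ Fintype.card V := Nat.mul_le_mul_right _ h
  rw [add_mul, one_mul] at h2
  omega

theorem key_inj {S T : Finset V} (h : key S = key T) : S = T := by
  have h1 : S.card = T.card := by
    rcases lt_trichotomy S.card T.card with h2 | h2 | h2
    · exact absurd h (key_lt_of_card_lt h2).ne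
    · exact h2
    · exact absurd h (key_lt_of_card_lt h2).ne'
  rw [key_eq, key_eq, h1, Nat.add_left_cancel_iff, low_eq, low_eq] at h
  have h2 := Finset.geomSum_injective le_rfl h
  have h3 : Function.Injective fun v : V => (Fintype.equivFin V v : ℕ) := fun a b hab =>
    (Fintype.equivFin V).injective (Fin.ext hab)
  exact Finset.image_injective h3 h2

theorem wv_pos (v : V) : 0 < wv v := by
  unfold wv
  positivity

theorem key_insert {S : Finset V} {a : V} (ha : a ∉ S) : key (insert a S) = wv a + key S := by
  unfold key
  rw [sum_insert ha]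

theorem key_erase {S : Finset V} {a : V} (ha : a ∈ S) : key (S.erase a) < key S := by
  have h := key_insert (notMem_erase a S)
  rw [insert_erase ha] at h
  have := wv_pos a
  omega

end key

variable {V : Type*} [Fintype V] [DecidableEq V] {F : Type*} [Field F]

/-- the sign of a bit -/
def sgF (F : Type*) [Field F] (b : Bool) : F := if b then -1 else 1

theorem sgF_sq (b : Bool) : sgF F b * sgF F b = 1 := by
  cases b <;> simp [sgF]

/-- characters -/
def chF (F : Type*) [Field F] {V : Type*} (S : Finset V) (y : V → Bool) : F := ∏ v ∈ S, sgF F (y v)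

omit [Fintype V] [DecidableEq V] in
theorem chF_empty (y : V → Bool) : chF F ∅ y = 1 := prod_empty

omit [Fintype V] [DecidableEq V] in
theorem chF_sq (S : Finset V) (y : V → Bool) : chF F S y * chF F S y = 1 := by
  unfold chF
  rw [← prod_mul_distrib]
  exact prod_eq_one fun v _ => sgF_sq _

omit [Fintype V] in
theorem chF_insert {S : Finset V} {a : V} (ha : a ∉ S) (y : V → Bool) :
    chF F (insert a S) y = sgF F (y a) * chF F S y := by
  unfold chF
  rw [prod_insert ha]

omit [Fintype V] in
theorem chF_erase {S : Finset V} {a : V} (ha : a ∈ S) (y : V → Bool) :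
    sgF F (y a) * chF F S y = chF F (S.erase a) y := by
  have h := chF_insert (F := F) (notMem_erase a S) y
  rw [insert_erase ha] at h
  rw [h, ← mul_assoc, sgF_sq, one_mul]

/-- the restriction of a character to a set of points -/
def res (F : Type*) [Field F] {V : Type*} (Y : Finset (V → Bool)) (S : Finset V) : Y → F := fun y => chF F S y.1

/-- The span of the characters of smaller key. -/
noncomputable def low (F : Type*) [Field F] (Y : Finset (V → Bool)) (n : ℕ) : Submodule F (Y → F) :=
  Submodule.span F (res F Y '' {T | key T < n})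

theorem res_mem_low {Y : Finset (V → Bool)} {n : ℕ} {T : Finset V} (h : key T < n) : res F Y T ∈ low F Y n :=
  Submodule.subset_span ⟨T, h, rfl⟩

theorem low_mono {Y : Finset (V → Bool)} {n m : ℕ} (h : n ≤ m) : low F Y n ≤ low F Y m := by
  refine Submodule.span_mono (Set.image_mono fun T hT => ?_)
  exact lt_of_lt_of_le hT h

/-- The standard sets. -/
noncomputable def Std (F : Type*) [Field F] (Y : Finset (V → Bool)) : Finset (Finset V) := by
  classical
  exact univ.filter fun S => res F Y S ∉ low F Y (key S)

theorem mem_Std {Y : Finset (V → Bool)} {S : Finset V} : S ∈ Std F Y ↔ res F Y S ∉ low F Y (key S) := by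
  classical
  unfold Std
  simp

theorem Std_step {Y : Finset (V → Bool)} {S : Finset V} {a : V} (ha : a ∉ S) (h : insert a S ∈ Std F Y) : S ∈ Std F Y := by
  rw [mem_Std] at h ⊢
  intro h1
  apply h
  have h2 : res F Y (insert a S) = LinearMap.mulLeft F (res F Y {a}) (res F Y S) := by
    funext y
    show chF F (insert a S) y.1 = chF F {a} y.1 * chF F S y.1
    rw [chF_insert ha]
    congr 1
    unfold chF
    rw [prod_singleton]
  rw [h2]
  have h3 : low F Y (key S) ≤ (low F Y (key (insert a S))).comap (LinearMap.mulLeft F (res F Y {a})) := by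
    refine Submodule.span_le.2 ?_
    rintro _ ⟨T, hT, rfl⟩
    have hT' : key T < key S := hT
    show LinearMap.mulLeft F (res F Y {a}) (res F Y T) ∈ low F Y (key (insert a S))
    by_cases haT : a ∈ T
    · have h4 : LinearMap.mulLeft F (res F Y {a}) (res F Y T) = res F Y (T.erase a) := by
        funext y
        show chF F {a} y.1 * chF F T y.1 = chF F (T.erase a) y.1
        rw [← chF_erase haT]
        congr 1
        unfold chF
        rw [prod_singleton]
      rw [h4]
      refine res_mem_low ?_
      have h5 := key_erase haT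
      have h6 := key_insert ha
      omega
    · have h4 : LinearMap.mulLeft F (res F Y {a}) (res F Y T) = res F Y (insert a T) := by
        funext y
        show chF F {a} y.1 * chF F T y.1 = chF F (insert a T) y.1
        rw [chF_insert haT]
        congr 1
        unfold chF
        rw [prod_singleton]
      rw [h4]
      refine res_mem_low ?_
      rw [key_insert ha, key_insert haT]
      omega
  exact h3 h1

theorem Std_down {Y : Finset (V → Bool)} {S T : Finset V} (hTS : T ⊆ S) (h : S ∈ Std F Y) : T ∈ Std F Y := by
  obtain ⟨n, hn⟩ : ∃ n, n = (S \ T).card := ⟨_, rfl⟩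
  induction n generalizing S with
  | zero =>
    have h1 : S \ T = ∅ := card_eq_zero.1 hn.symm
    rw [sdiff_eq_empty_iff_subset] at h1
    rwa [subset_antisymm hTS h1]
  | succ n ih =>
    obtain ⟨a, ha⟩ : (S \ T).Nonempty := card_pos.1 (by omega)
    rw [mem_sdiff] at ha
    have h1 : S.erase a ∈ Std F Y := by
      refine Std_step (notMem_erase a S) ?_
      rwa [insert_erase ha.1]
    refine ih (S := S.erase a) ?_ h1 ?_
    · intro v hv
      rw [mem_erase]
      exact ⟨fun hva => ha.2 (hva ▸ hv), hTS hv⟩
    · have h2 : (S.erase a) \ T = (S \ T).erase a := by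
        ext v
        simp only [mem_sdiff, mem_erase]
        tauto
      rw [h2, card_erase_of_mem (mem_sdiff.2 ha)]
      omega

theorem res_mem_std {Y : Finset (V → Bool)} (S : Finset V) :
    res F Y S ∈ Submodule.span F (res F Y '' (Std F Y : Set (Finset V))) := by
  obtain ⟨n, hn⟩ : ∃ n, key S < n := ⟨_, Nat.lt_succ_self _⟩
  induction n generalizing S with
  | zero => omega
  | succ n ih =>
    by_cases h : S ∈ Std F Y
    · exact Submodule.subset_span ⟨S, h, rfl⟩
    · have h1 : res F Y S ∈ low F Y (key S) := by
        by_contra hc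
        exact h (mem_Std.2 hc)
      have h2 : low F Y (key S) ≤ Submodule.span F (res F Y '' (Std F Y : Set (Finset V))) := by
        refine Submodule.span_le.2 ?_
        rintro _ ⟨T, hT, rfl⟩
        have hT' : key T < key S := hT
        exact ih T (by omega)
      exact h2 h1

theorem sum_chF (y z : V → Bool) : ∑ S : Finset V, chF F S y * chF F S z =
    if y = z then (2 : F) ^ Fintype.card V else 0 := by
  have h1 : ∏ v : V, (1 + sgF F (y v) * sgF F (z v)) = ∑ S : Finset V, chF F S y * chF F S z := by
    rw [prod_one_add]
    rw [powerset_univ]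
    refine sum_congr rfl fun S _ => ?_
    unfold chF
    rw [prod_mul_distrib]
  rw [← h1]
  split_ifs with h
  · subst h
    rw [prod_congr rfl fun v _ => by rw [sgF_sq], prod_const, card_univ]
    norm_num
  · have h3 : ∃ v, y v ≠ z v := by
      by_contra hc
      push Not at hc
      exact h (funext hc)
    obtain ⟨v, hv⟩ := h3
    refine prod_eq_zero (mem_univ v) ?_
    unfold sgF
    revert hv
    cases y v <;> cases z v <;> simp

theorem card_le_Std (h2 : (2 : F) ≠ 0) (Y : Finset (V → Bool)) : Y.card ≤ (Std F Y).card := by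
  classical
  have h1 : Submodule.span F (res F Y '' (Std F Y : Set (Finset V))) = ⊤ := by
    rw [eq_top_iff]
    intro g _
    have e : g = ∑ z : Y, (g z / 2 ^ Fintype.card V) • ∑ S : Finset V, chF F S z.1 • res F Y S := by
      funext y
      rw [Finset.sum_apply]
      rw [sum_eq_single y]
      · show g y = g y / 2 ^ Fintype.card V * ((∑ S : Finset V, chF F S y.1 • res F Y S) y)
        rw [Finset.sum_apply]
        have e1 : ∑ S : Finset V, (chF F S y.1 • res F Y S) y = ∑ S : Finset V, chF F S y.1 * chF F S y.1 := rfl
        rw [e1, sum_chF y.1 y.1, if_pos rfl, div_mul_cancel₀]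
        exact pow_ne_zero _ h2
      · intro z _ hz
        show g z / 2 ^ Fintype.card V * ((∑ S : Finset V, chF F S z.1 • res F Y S) y) = 0
        rw [Finset.sum_apply]
        have e1 : ∑ S : Finset V, (chF F S z.1 • res F Y S) y = ∑ S : Finset V, chF F S z.1 * chF F S y.1 := rfl
        rw [e1, sum_chF z.1 y.1, if_neg (fun h => hz (Subtype.ext h)), mul_zero]
      · intro h
        exact absurd (mem_univ _) h
    rw [e]
    exact Submodule.sum_mem _ fun z _ => Submodule.smul_mem _ _ (Submodule.sum_mem _ fun S _ => Submodule.smul_mem _ _ (res_mem_std S))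
  have h3 : Module.finrank F (Y → F) = Y.card := by
    rw [Module.finrank_fintype_fun_eq_card, Fintype.card_coe]
  rw [← h3, ← finrank_top, ← h1]
  have h4 : res F Y '' (Std F Y : Set (Finset V)) = (((Std F Y).image (res F Y) : Finset (Y → F)) : Set (Y → F)) := by
    rw [coe_image]
  rw [h4]
  refine (finrank_span_finset_le_card _).trans card_image_le

/-- Functions with different standard leading characters are independent. -/
theorem indep {Y : Finset (V → Bool)} {X : Type*} [Fintype X] (S : X → Finset V) (hS : Function.Injective S)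
    (hStd : ∀ x, S x ∈ Std F Y) {k : ℕ} (hk : ∀ x, (S x).card = k) (h : X → (Y → F)) {c : F} (hc : c ≠ 0)
    (hh : ∀ x, h x - c • res F Y (S x) ∈ Submodule.span F (res F Y '' {T | T.card < k})) :
    LinearIndependent F h := by
  classical
  rw [Fintype.linearIndependent_iff]
  intro b hb
  by_contra hcon
  push Not at hcon
  obtain ⟨x1, hx1⟩ := hcon
  obtain ⟨x0, hx0, hmax⟩ := exists_max_image (univ.filter fun x => b x ≠ 0) (fun x => key (S x)) ⟨x1, by simp [hx1]⟩
  rw [mem_filter] at hx0
  have h1 : Submodule.span F (res F Y '' {T | T.card < k}) ≤ low F Y (key (S x0)) := by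
    refine Submodule.span_le.2 ?_
    rintro _ ⟨T, hT, rfl⟩
    refine res_mem_low (key_lt_of_card_lt ?_)
    rw [hk]
    exact hT
  have h2 : (b x0 * c) • res F Y (S x0) = -(∑ x ∈ univ.erase x0, (b x * c) • res F Y (S x)) -
      ∑ x, b x • (h x - c • res F Y (S x)) := by
    have h3 : ∑ x, b x • (h x - c • res F Y (S x)) = ∑ x, b x • h x - ∑ x, (b x * c) • res F Y (S x) := by
      rw [← sum_sub_distrib]
      refine sum_congr rfl fun x _ => ?_
      rw [smul_sub, smul_smul]
    rw [h3, hb, ← add_sum_erase univ (fun x => (b x * c) • res F Y (S x)) (mem_univ x0)]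
    abel
  have h3 : (b x0 * c) • res F Y (S x0) ∈ low F Y (key (S x0)) := by
    rw [h2]
    refine Submodule.sub_mem _ (Submodule.neg_mem _ (Submodule.sum_mem _ fun x hx => ?_)) (Submodule.sum_mem _ fun x _ =>
      Submodule.smul_mem _ _ (h1 (hh x)))
    by_cases hbx : b x = 0
    · rw [hbx, zero_mul, zero_smul]
      exact Submodule.zero_mem _
    · refine Submodule.smul_mem _ _ (res_mem_low (lt_of_le_of_ne (hmax x (by simp [hbx])) ?_))
      intro hkey
      exact (mem_erase.1 hx).1 (hS (key_inj hkey))
  have h4 : res F Y (S x0) ∈ low F Y (key (S x0)) := by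
    have h5 : res F Y (S x0) = (b x0 * c)⁻¹ • ((b x0 * c) • res F Y (S x0)) := by
      rw [smul_smul, inv_mul_cancel₀ (mul_ne_zero hx0.2 hc), one_smul]
    rw [h5]
    exact Submodule.smul_mem _ _ h3
  exact mem_Std.1 (hStd x0) h4

end H80SP
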