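import Pool.Agent.H58.LM.Rank
import Pool.Agent.H80.SP.Std

/-! The kernel of a system of parities over a field of characteristic different from 2, and the
rank bound for sums of dead products. -/

set_option autoImplicit false
set_option linter.unusedSectionVars false

namespace H80SP

open Finset
open Pool.Agent.H58.LM (Sys chi sg Live LI chi_mul_self chi_symmDiff abs_chi card_slice)
open Pool.Agent.H58.LG (zz slice)

variable {ι α : Type*} [Fintype ι] [DecidableEq ι] [Fintype α] [DecidableEq α] {D : ℕ}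
  {F : Type*} [Field F]

open Classical in
/-- the sign of a real number `1` or `-1` as an element of a field -/
noncomputable def sR (F : Type*) [Field F] (r : ℝ) : F := if r = 1 then 1 else -1

theorem sR_one : sR F 1 = 1 := if_pos rfl

theorem sR_neg_one : sR F (-1) = -1 := if_neg (by norm_num)

theorem sR_mul {r s : ℝ} (hr : r = 1 ∨ r = -1) (hs : s = 1 ∨ s = -1) : sR F (r * s) = sR F r * sR F s := by
  rcases hr with rfl | rfl <;> rcases hs with rfl | rfl
  · rw [mul_one, sR_one, mul_one]
  · rw [one_mul, sR_one, one_mul]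
  · rw [mul_one, sR_one, mul_one]
  · rw [neg_mul_neg, mul_one, sR_one, sR_neg_one, neg_mul_neg, mul_one]

theorem sR_sq {r : ℝ} (hr : r = 1 ∨ r = -1) : sR F r * sR F r = 1 := by
  rcases hr with rfl | rfl
  · rw [sR_one, mul_one]
  · rw [sR_neg_one, neg_mul_neg, mul_one]

theorem sR_neg {r : ℝ} (hr : r = 1 ∨ r = -1) : sR F (-r) = - sR F r := by
  rcases hr with rfl | rfl
  · rw [sR_one, sR_neg_one]
  · rw [neg_neg, sR_one, sR_neg_one, neg_neg]

theorem sq_one_iff {r : ℝ} (h : r * r = 1) : r = 1 ∨ r = -1 := mul_self_eq_one_iff.1 h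

theorem chi_pm (S : Finset ι) (z : ι → Bool) : chi S z = 1 ∨ chi S z = -1 := sq_one_iff (chi_mul_self S z)

theorem sn_pm (A : Sys ι D) {S : Finset ι} (hS : S ∈ A.L) : A.sn S = 1 ∨ A.sn S = -1 := sq_one_iff (A.sn_sq S hS)

theorem sR_sg (b : Bool) : sR F (sg b) = sgF F b := by
  cases b
  · show sR F (sg false) = sgF F false
    have : sg false = 1 := rfl
    rw [this, sR_one]
    rfl
  · have : sg true = -1 := rfl
    rw [this, sR_neg_one]
    rfl

theorem sR_chi (S : Finset ι) (z : ι → Bool) : sR F (chi S z) = chF F S z := by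
  induction S using Finset.induction_on with
  | empty =>
    rw [chF_empty]
    have : chi (∅ : Finset ι) z = 1 := Finset.prod_empty
    rw [this, sR_one]
  | insert a S ha ih =>
    rw [chF_insert ha, ← ih, ← sR_sg]
    have h1 : chi (insert a S) z = sg (z a) * chi S z := by
      unfold chi
      rw [prod_insert ha]
    rw [h1]
    refine sR_mul ?_ (chi_pm S z)
    cases z a
    · exact Or.inl rfl
    · exact Or.inr rfl

theorem chF_congr {S : Finset ι} {z z' : ι → Bool} (h : ∀ i ∈ S, z i = z' i) : chF F S z = chF F S z' := by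
  unfold chF
  exact prod_congr rfl fun i hi => by rw [h i hi]

theorem chF_union {S T : Finset ι} (h : Disjoint S T) (z : ι → Bool) : chF F (S ∪ T) z = chF F S z * chF F T z := by
  unfold chF
  exact prod_union h

/-- the kernel over `F` at a dead restriction has only high parts -/
theorem kerF_dead (h2 : (2 : F) ≠ 0) (A : Sys ι D) {J : Finset ι} (hJ : J.card ≤ D) {z : ι → Bool} (hz : ¬ Live A J z) :
    ∑ S ∈ A.L, sR F (A.sn S) * chF F S z =
      ∑ S ∈ A.L.filter (fun S => D < (S \ J).card + J.card), sR F (A.sn S) * chF F S z := by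
  classical
  rw [← Finset.sum_filter_add_sum_filter_not A.L (fun S => D < (S \ J).card + J.card)]
  have h0 : ∑ S ∈ A.L.filter (fun S => ¬ D < (S \ J).card + J.card), sR F (A.sn S) * chF F S z = 0 := by
    unfold Live at hz
    push Not at hz
    obtain ⟨S0, hS0, hS0J, hne⟩ := hz
    have hneg : chi S0 z = - A.sn S0 := by
      rcases chi_pm S0 z with h1 | h1 <;> rcases sn_pm A hS0 with h3 | h3
      · exact absurd (h1.trans h3.symm) hne
      · rw [h1, h3, neg_neg]
      · rw [h1, h3]
      · exact absurd (h1.trans h3.symm) hne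
    have key : ∀ S ∈ A.L.filter (fun S => ¬ D < (S \ J).card + J.card),
        symmDiff S S0 ∈ A.L.filter (fun S => ¬ D < (S \ J).card + J.card) ∧
        sR F (A.sn (symmDiff S S0)) * chF F (symmDiff S S0) z = - (sR F (A.sn S) * chF F S z) := by
      intro S hS
      obtain ⟨h1, h2⟩ := Finset.mem_filter.mp hS
      have h3 : symmDiff S S0 \ J = S \ J := by
        ext i
        rw [Finset.mem_sdiff, Finset.mem_sdiff, Finset.mem_symmDiff]
        constructor
        · rintro ⟨⟨h4, -⟩ | ⟨h4, -⟩, h5⟩
          · exact ⟨h4, h5⟩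
          · exact absurd (hS0J h4) h5
        · rintro ⟨h4, h5⟩
          exact ⟨Or.inl ⟨h4, fun h => h5 (hS0J h)⟩, h5⟩
      have h4 : (symmDiff S S0).card ≤ (symmDiff S S0 \ J).card + J.card := by
        have := Finset.card_le_card_sdiff_add_card (s := symmDiff S S0) (t := J)
        omega
      have h5 := A.closed S h1 S0 hS0 (by rw [h3] at h4; omega)
      refine ⟨Finset.mem_filter.mpr ⟨h5.1, by rw [h3]; exact h2⟩, ?_⟩
      rw [h5.2, ← sR_chi, chi_symmDiff, hneg, sR_mul (sn_pm A h1) (sn_pm A hS0), mul_neg, ← sR_chi,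
        sR_neg (sq_one_iff ?_), sR_mul (chi_pm S z) (sn_pm A hS0)]
      · have h6 := sR_sq (F := F) (sn_pm A hS0)
        calc sR F (A.sn S) * sR F (A.sn S0) * -(sR F (chi S z) * sR F (A.sn S0)) =
              -(sR F (A.sn S) * sR F (chi S z)) * (sR F (A.sn S0) * sR F (A.sn S0)) := by ring
          _ = _ := by rw [h6, mul_one]
      · have h7 := chi_mul_self S z
        have h8 := A.sn_sq S0 hS0
        calc chi S z * A.sn S0 * (chi S z * A.sn S0) = (chi S z * chi S z) * (A.sn S0 * A.sn S0) := by ring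
          _ = 1 := by rw [h7, h8, mul_one]
    have hinv : ∀ S : Finset ι, symmDiff (symmDiff S S0) S0 = S := by
      intro S
      rw [symmDiff_assoc, symmDiff_self]
      exact symmDiff_bot S
    have h1 : ∑ S ∈ A.L.filter (fun S => ¬ D < (S \ J).card + J.card), sR F (A.sn S) * chF F S z =
        ∑ S ∈ A.L.filter (fun S => ¬ D < (S \ J).card + J.card), -(sR F (A.sn S) * chF F S z) := by
      refine Finset.sum_nbij' (fun S => symmDiff S S0) (fun S => symmDiff S S0)
        (fun S hS => (key S hS).1) (fun S hS => (key S hS).1) (fun S _ => hinv S)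
        (fun S _ => hinv S) fun S hS => ?_
      rw [(key S hS).2, neg_neg]
    rw [Finset.sum_neg_distrib] at h1
    have h3 : (2 : F) * ∑ S ∈ A.L.filter (fun S => ¬ D < (S \ J).card + J.card), sR F (A.sn S) * chF F S z = 0 := by
      rw [two_mul]
      nth_rewrite 1 [h1]
      exact neg_add_cancel _
    exact (mul_eq_zero.1 h3).resolve_left h2
  rw [h0, add_zero]

/-- A family of sets closed under symmetric differences has `2 ^ r` members. -/
theorem exists_pow_two (n : ℕ) : ∀ L : Finset (Finset ι), L.card ≤ n → ∅ ∈ L →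
    (∀ S ∈ L, ∀ T ∈ L, symmDiff S T ∈ L) → ∃ r, L.card = 2 ^ r := by
  classical
  induction n with
  | zero =>
    intro L hL h0 _
    have := card_pos.2 ⟨_, h0⟩
    omega
  | succ n ih =>
    intro L hL h0 hc
    by_cases h1 : ∀ S ∈ L, S = ∅
    · refine ⟨0, ?_⟩
      have : L = {∅} := by
        ext S
        rw [mem_singleton]
        exact ⟨h1 S, fun h => h ▸ h0⟩
      rw [this, card_singleton, pow_zero]
    · push Not at h1
      obtain ⟨S0, hS0, hne⟩ := h1
      obtain ⟨a, ha⟩ := hne
      have h2 : (L.filter fun S => a ∈ S).card = (L.filter fun S => ¬ a ∈ S).card := by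
        refine card_nbij' (fun S => symmDiff S S0) (fun S => symmDiff S S0) ?_ ?_ ?_ ?_
        · intro S hS
          rw [mem_coe, mem_filter] at hS ⊢
          refine ⟨hc S hS.1 S0 hS0, ?_⟩
          show ¬ a ∈ symmDiff S S0
          rw [mem_symmDiff]
          tauto
        · intro S hS
          rw [mem_coe, mem_filter] at hS ⊢
          refine ⟨hc S hS.1 S0 hS0, ?_⟩
          show a ∈ symmDiff S S0
          rw [mem_symmDiff]
          tauto
        · intro S _
          show symmDiff (symmDiff S S0) S0 = S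
          rw [symmDiff_assoc, symmDiff_self]
          exact symmDiff_bot S
        · intro S _
          show symmDiff (symmDiff S S0) S0 = S
          rw [symmDiff_assoc, symmDiff_self]
          exact symmDiff_bot S
      have h3 := card_filter_add_card_filter_not (s := L) (fun S => a ∈ S)
      have h4 : 0 < (L.filter fun S => a ∈ S).card := card_pos.2 ⟨S0, mem_filter.2 ⟨hS0, ha⟩⟩
      obtain ⟨r, hr⟩ := ih (L.filter fun S => ¬ a ∈ S) (by omega) (mem_filter.2 ⟨h0, by simp⟩) (by
        intro S hS T hT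
        rw [mem_filter] at hS hT ⊢
        refine ⟨hc S hS.1 T hT.1, ?_⟩
        rw [mem_symmDiff]
        tauto)
      exact ⟨r + 1, by rw [pow_succ]; omega⟩

theorem LI_ne_zero (h2 : (2 : F) ≠ 0) (A : Sys ι D) {I : Finset ι} (hI : I.card ≤ D) : (LI A I : F) ≠ 0 := by
  classical
  obtain ⟨r, hr⟩ := exists_pow_two _ (A.L.filter fun S => S ⊆ I) le_rfl
    (mem_filter.2 ⟨A.empty_mem, empty_subset _⟩) (by
      intro S hS T hT
      rw [mem_filter] at hS hT ⊢
      have h3 : symmDiff S T ⊆ I := by
        intro i hi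
        rw [mem_symmDiff] at hi
        rcases hi with h | h
        · exact hS.2 h.1
        · exact hT.2 h.1
      exact ⟨(A.closed S hS.1 T hT.1 ((card_le_card h3).trans hI)).1, h3⟩)
  have h3 : LI A I = 2 ^ r := hr
  rw [h3]
  push_cast
  exact pow_ne_zero _ h2

/-- a point of `ι → α → Bool` as a point of the cube with coordinates `ι × α` -/
def unc (y : ι → α → Bool) : ι × α → Bool := fun v => y v.1 v.2

theorem unc_injective : Function.Injective (unc (ι := ι) (α := α)) := by
  intro y y' h
  funext i a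
  exact congrFun h (i, a)

/-- the pairs `(i, x i)`, `i` in `T` -/
def gr (T : Finset ι) (x : ι → α) : Finset (ι × α) := T.image fun i => (i, x i)

theorem card_gr (T : Finset ι) (x : ι → α) : (gr T x).card = T.card := by
  unfold gr
  refine card_image_of_injective _ ?_
  intro i j h
  exact (Prod.ext_iff.1 h).1

theorem chF_gr (T : Finset ι) (x : ι → α) (y : ι → α → Bool) : chF F (gr T x) (unc y) = chF F T (zz x y) := by
  unfold chF gr
  rw [prod_image]
  · rfl
  · intro i _ j _ h
    exact (Prod.ext_iff.1 h).1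

/-- the pairs `(i, x i)`, `i` outside `I` -/
def gt (I : Finset ι) (x : ι → α) : Finset (ι × α) := gr (univ \ I) x

theorem gt_inj {I : Finset ι} {x x' : ι → α} (h : gt I x = gt I x') (hI : ∀ i ∈ I, x i = x' i) : x = x' := by
  funext i
  by_cases hi : i ∈ I
  · exact hI i hi
  · have h1 : (i, x i) ∈ gt I x := mem_image.2 ⟨i, by simp [hi], rfl⟩
    rw [h] at h1
    obtain ⟨j, -, hj⟩ := mem_image.1 h1
    obtain ⟨h2, h3⟩ := Prod.ext_iff.1 hj
    have h4 : j = i := h2
    subst h4
    exact h3.symm

/-- the matrix -/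
noncomputable def mat (F : Type*) [Field F] (A : Sys ι D) (x : ι → α) (y : ι → α → Bool) : F :=
  ∑ S ∈ A.L, sR F (A.sn S) * chF F (univ \ S) (zz x y)

theorem mat_eq (A : Sys ι D) (x : ι → α) (y : ι → α → Bool) :
    mat F A x y = chF F univ (zz x y) * ∑ S ∈ A.L, sR F (A.sn S) * chF F S (zz x y) := by
  unfold mat
  rw [mul_sum]
  refine sum_congr rfl fun S _ => ?_
  have e3 : chF F univ (zz x y) = chF F S (zz x y) * chF F (univ \ S) (zz x y) := by
    rw [← chF_union disjoint_sdiff, union_sdiff_of_subset (subset_univ S)]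
  have e5 := chF_sq (F := F) S (zz x y)
  rw [e3]
  calc sR F (A.sn S) * chF F (univ \ S) (zz x y) =
        (chF F S (zz x y) * chF F S (zz x y)) * (sR F (A.sn S) * chF F (univ \ S) (zz x y)) := by rw [e5, one_mul]
    _ = _ := by ring

/-- the leading character of the matrix -/
theorem mat_lead (A : Sys ι D) {I : Finset ι} {x0 : ι → α} {x : ι → α}
    (hx : ∀ i ∈ I, x i = x0 i) {z0 : ι → Bool} (hl : Live A I z0) (Y : Finset (ι → α → Bool))
    (hY : ∀ y ∈ Y, ∀ i ∈ I, y i (x0 i) = z0 i) :
    (fun w : ↥(Y.image unc) => mat F A x fun i a => w.1 (i, a)) -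
      (chF F I z0 * (LI A I : F)) • res F (Y.image unc) (gt I x) ∈
      Submodule.span F (res F (Y.image unc) '' {T | T.card < (univ \ I).card}) := by
  classical
  have h1 : (fun w : ↥(Y.image unc) => mat F A x fun i a => w.1 (i, a)) =
      ∑ S ∈ A.L, (sR F (A.sn S) * chF F (I \ S) z0) • res F (Y.image unc) (gr ((univ \ S) \ I) x) := by
    funext w
    obtain ⟨y, hy, hyw⟩ := mem_image.1 w.2
    have e1 : (fun i a => w.1 (i, a)) = y := by
      funext i a
      rw [← hyw]
      rfl
    rw [Finset.sum_apply]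
    show mat F A x (fun i a => w.1 (i, a)) = _
    rw [e1]
    unfold mat
    refine sum_congr rfl fun S _ => ?_
    show _ = sR F (A.sn S) * chF F (I \ S) z0 * chF F (gr ((univ \ S) \ I) x) w.1
    rw [← hyw, chF_gr, mul_assoc]
    congr 1
    have e2 : univ \ S = (I \ S) ∪ ((univ \ S) \ I) := by
      ext i
      simp only [mem_sdiff, mem_univ, true_and, mem_union]
      tauto
    have e3 : Disjoint (I \ S) ((univ \ S) \ I) := by
      rw [disjoint_left]
      intro i hi hi'
      exact (mem_sdiff.1 hi').2 (mem_sdiff.1 hi).1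
    conv_lhs => rw [e2]
    rw [chF_union e3]
    congr 1
    refine chF_congr fun i hi => ?_
    have hiI := (mem_sdiff.1 hi).1
    show y i (x i) = z0 i
    rw [hx i hiI]
    exact hY y hy i hiI
  have h2 : (chF F I z0 * (LI A I : F)) • res F (Y.image unc) (gt I x) =
      ∑ S ∈ A.L.filter (fun S => S ⊆ I), (sR F (A.sn S) * chF F (I \ S) z0) • res F (Y.image unc) (gr ((univ \ S) \ I) x) := by
    have h3 : ∀ S ∈ A.L.filter (fun S => S ⊆ I), (sR F (A.sn S) * chF F (I \ S) z0) • res F (Y.image unc) (gr ((univ \ S) \ I) x) =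
        chF F I z0 • res F (Y.image unc) (gt I x) := by
      intro S hS
      obtain ⟨hSL, hSI⟩ := mem_filter.1 hS
      have e1 : (univ \ S) \ I = univ \ I := by
        ext i
        simp only [mem_sdiff, mem_univ, true_and]
        exact ⟨fun h => h.2, fun h => ⟨fun h' => h (hSI h'), h⟩⟩
      rw [e1]
      show _ = chF F I z0 • res F (Y.image unc) (gr (univ \ I) x)
      congr 1
      have e2 : chF F I z0 = chF F S z0 * chF F (I \ S) z0 := by
        rw [← chF_union disjoint_sdiff, union_sdiff_of_subset hSI]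
      have e3 : chF F S z0 = sR F (A.sn S) := by
        rw [← sR_chi, hl S hSL hSI]
      rw [e2, e3]
    rw [sum_congr rfl h3, sum_const, ← Nat.cast_smul_eq_nsmul F, smul_smul, mul_comm]
    rfl
  rw [h1, h2, ← sum_filter_add_sum_filter_not A.L (fun S => S ⊆ I), add_sub_cancel_left]
  refine Submodule.sum_mem _ fun S hS => Submodule.smul_mem _ _ (Submodule.subset_span ⟨_, ?_, rfl⟩)
  obtain ⟨-, hSI⟩ := mem_filter.1 hS
  show (gr ((univ \ S) \ I) x).card < (univ \ I).card
  rw [card_gr]
  obtain ⟨i, hiS, hiI⟩ := not_subset.1 hSI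
  refine card_lt_card ⟨fun j hj => ?_, fun h => ?_⟩
  · rw [mem_sdiff] at hj ⊢
    exact ⟨mem_univ _, hj.2⟩
  · have h3 : i ∈ (univ \ S) \ I := h (by simp [hiI])
    simp [hiS] at h3

/-- **The rank bound.** An identity of sums of dead products over a field of characteristic different
from 2 on `X × Y`, `Y` live, needs many products. -/
theorem span_card (h2 : (2 : F) ≠ 0) (A : Sys ι D) {I : Finset ι} (hI : I.card ≤ D) {x0 : ι → α}
    {X : Finset (ι → α)} (hX0 : ∀ x ∈ X, ∀ i ∈ I, x i = x0 i) (Y : Finset (ι → α → Bool)) {z0 : ι → Bool}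
    (hY0 : ∀ y ∈ Y, ∀ i ∈ I, y i (x0 i) = z0 i) (hl : Live A I z0) {R : Type*} [Fintype R] (J : R → Finset ι)
    (a : R → ι → α) (hJ : ∀ r, (J r).card ≤ D) (f : R → (ι → α) → F) (g : R → (ι → α → Bool) → F)
    (hf : ∀ r, ∀ x ∈ X, f r x ≠ 0 → ∀ i ∈ J r, x i = a r i)
    (hg : ∀ r, ∀ y ∈ Y, g r y ≠ 0 → ¬ Live A (J r) (zz (a r) y))
    (h1 : ∀ x ∈ X, ∀ y ∈ Y, ∑ r, f r x * g r y = 1) (hα : 0 < Fintype.card α) :
    (X.filter fun x => gt I x ∈ Std F (Y.image unc)).card ≤
      Fintype.card R * (A.L.card * Fintype.card α ^ (Fintype.card ι - (D + 1))) := by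
  classical
  obtain ⟨T, hT⟩ : ∃ T : R → Finset (Finset ι), ∀ r, T r =
    A.L.filter (fun S => D < (S \ J r).card + (J r).card) := ⟨_, fun _ => rfl⟩
  -- the functions
  obtain ⟨v, hv⟩ : ∃ v : R → Finset ι → (ι → α) → ↥(Y.image unc) → F, ∀ r S b w, v r S b w =
    g r (fun i c => w.1 (i, c)) * (sR F (A.sn S) * chF F (univ \ S) (zz b fun i c => w.1 (i, c))) := ⟨_, fun _ _ _ _ => rfl⟩
  obtain ⟨B, hB⟩ : ∃ B : Finset (↥(Y.image unc) → F), B = (univ : Finset R).biUnion fun r =>
    (T r).biUnion fun S => (slice (univ \ (S ∪ J r)) (a r)).image fun b => v r S b := ⟨_, rfl⟩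
  have hBc : B.card ≤ Fintype.card R * (A.L.card * Fintype.card α ^ (Fintype.card ι - (D + 1))) := by
    have hB0 : B.card ≤ ∑ r : R, ∑ S ∈ T r, (Fintype.card α) ^ (univ \ (S ∪ J r)).card := by
      rw [hB]
      refine card_biUnion_le.trans (sum_le_sum fun r _ => ?_)
      refine card_biUnion_le.trans (sum_le_sum fun S _ => ?_)
      exact card_image_le.trans (le_of_eq (card_slice _ _))
    refine hB0.trans ?_
    have h3 : ∀ r : R, ∑ S ∈ T r, (Fintype.card α) ^ (univ \ (S ∪ J r)).card ≤
        A.L.card * Fintype.card α ^ (Fintype.card ι - (D + 1)) := by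
      intro r
      have h4 : ∀ S ∈ T r, (Fintype.card α) ^ (univ \ (S ∪ J r)).card ≤ Fintype.card α ^ (Fintype.card ι - (D + 1)) := by
        intro S hS
        have hS' : D < (S ∪ J r).card := by
          rw [hT] at hS
          have h5 := (mem_filter.1 hS).2
          have h6 : (S \ J r).card + (J r).card = (S ∪ J r).card := card_sdiff_add_card S (J r)
          omega
        have h7 : (univ \ (S ∪ J r)).card = Fintype.card ι - (S ∪ J r).card := by
          rw [card_sdiff_of_subset (subset_univ _), card_univ]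
        rw [h7]
        exact Nat.pow_le_pow_right hα (by omega)
      refine (sum_le_sum h4).trans ?_
      rw [sum_const, smul_eq_mul]
      refine Nat.mul_le_mul_right _ (card_le_card ?_)
      rw [hT]
      exact filter_subset _ _
    refine (sum_le_sum fun r _ => h3 r).trans ?_
    rw [sum_const, card_univ, smul_eq_mul]
  refine le_trans ?_ hBc
  -- the independent columns
  obtain ⟨X1, hX1⟩ : ∃ X1, X1 = X.filter fun x => gt I x ∈ Std F (Y.image unc) := ⟨_, rfl⟩
  rw [← hX1]
  have hXmem : ∀ x : X1, x.1 ∈ X ∧ gt I x.1 ∈ Std F (Y.image unc) := by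
    intro x
    have h3 : x.1 ∈ X.filter fun x => gt I x ∈ Std F (Y.image unc) := by
      rw [← hX1]
      exact x.2
    exact mem_filter.1 h3
  have hind : LinearIndependent F fun x : X1 => fun w : ↥(Y.image unc) =>
      mat F A x.1 fun i c => w.1 (i, c) := by
    refine indep (k := (univ \ I).card) (fun x : X1 => gt I x.1) ?_ (fun x => (hXmem x).2) (fun x => card_gr _ _) _
      (c := chF F I z0 * (LI A I : F)) ?_ fun x => mat_lead A (hX0 x.1 (hXmem x).1) hl Y hY0
    · intro x x' h
      refine Subtype.ext (gt_inj h fun i hi => ?_)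
      rw [hX0 x.1 (hXmem x).1 i hi, hX0 x'.1 (hXmem x').1 i hi]
    · refine mul_ne_zero ?_ (LI_ne_zero h2 A hI)
      intro h0
      have := chF_sq (F := F) I z0
      rw [h0, mul_zero] at this
      exact zero_ne_one this
  have hspan : ∀ x : X1, (fun w : ↥(Y.image unc) => mat F A x.1 fun i c => w.1 (i, c)) ∈
      Submodule.span F (B : Set (↥(Y.image unc) → F)) := by
    intro x
    have hxX := (hXmem x).1
    have e1 : (fun w : ↥(Y.image unc) => mat F A x.1 fun i c => w.1 (i, c)) =
        ∑ r, ∑ S ∈ T r, (f r x.1) • v r S (fun i => if i ∈ S ∪ J r then a r i else x.1 i) := by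
      funext w
      obtain ⟨y, hy, hyw⟩ := mem_image.1 w.2
      have e0 : (fun i c => w.1 (i, c)) = y := by
        funext i c
        rw [← hyw]
        rfl
      rw [Finset.sum_apply]
      show mat F A x.1 (fun i c => w.1 (i, c)) = _
      rw [e0]
      have e2 : mat F A x.1 y = ∑ r, f r x.1 * g r y * mat F A x.1 y := by
        rw [← sum_mul, h1 x.1 hxX y hy, one_mul]
      rw [e2]
      refine sum_congr rfl fun r _ => ?_
      rw [Finset.sum_apply]
      by_cases hfx : f r x.1 = 0
      · rw [hfx, zero_mul, zero_mul]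
        symm
        exact sum_eq_zero fun S _ => by rw [zero_smul]; rfl
      by_cases hgy : g r y = 0
      · rw [hgy, mul_zero, zero_mul]
        symm
        refine sum_eq_zero fun S _ => ?_
        show f r x.1 * v r S _ w = 0
        rw [hv, e0, hgy, zero_mul, mul_zero]
      have hxa := hf r x.1 hxX hfx
      have hdead : ¬ Live A (J r) (zz x.1 y) := by
        intro hl'
        refine hg r y hy hgy ((Pool.Agent.H58.LM.Live.congr fun i hi => ?_).mp hl')
        unfold zz
        rw [hxa i hi]
      rw [mat_eq, kerF_dead h2 A (hJ r) hdead, ← hT, mul_sum, mul_sum]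
      refine sum_congr rfl fun S _ => ?_
      show f r x.1 * g r y * (chF F univ (zz x.1 y) * (sR F (A.sn S) * chF F S (zz x.1 y))) = f r x.1 * v r S _ w
      rw [hv, e0]
      have e3 : chF F univ (zz x.1 y) = chF F S (zz x.1 y) * chF F (univ \ S) (zz x.1 y) := by
        rw [← chF_union disjoint_sdiff, union_sdiff_of_subset (subset_univ S)]
      have e4 : chF F (univ \ S) (zz (fun i => if i ∈ S ∪ J r then a r i else x.1 i) y) = chF F (univ \ S) (zz x.1 y) := by
        refine chF_congr fun i hi => ?_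
        show y i (if i ∈ S ∪ J r then a r i else x.1 i) = y i (x.1 i)
        congr 1
        by_cases h : i ∈ S ∪ J r
        · rw [if_pos h]
          exact (hxa i ((mem_union.1 h).resolve_left (mem_sdiff.1 hi).2)).symm
        · rw [if_neg h]
      have e5 := chF_sq (F := F) S (zz x.1 y)
      rw [e3, e4]
      calc f r x.1 * g r y * (chF F S (zz x.1 y) * chF F (univ \ S) (zz x.1 y) * (sR F (A.sn S) * chF F S (zz x.1 y))) =
            (chF F S (zz x.1 y) * chF F S (zz x.1 y)) * (f r x.1 * (g r y * (sR F (A.sn S) * chF F (univ \ S) (zz x.1 y)))) := by ring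
        _ = _ := by rw [e5, one_mul]
    rw [e1]
    refine Submodule.sum_mem _ fun r _ => Submodule.sum_mem _ fun S hS => Submodule.smul_mem _ _ (Submodule.subset_span ?_)
    rw [hB]
    refine mem_coe.2 (mem_biUnion.2 ⟨r, mem_univ _, mem_biUnion.2 ⟨S, hS, mem_image.2 ⟨_, ?_, rfl⟩⟩⟩)
    rw [Pool.Agent.H58.LG.mem_slice]
    intro i hi
    rw [if_pos]
    by_contra h
    exact hi (mem_sdiff.2 ⟨mem_univ _, h⟩)
  have h3 : LinearIndependent F fun x : X1 => (⟨_, hspan x⟩ : Submodule.span F (B : Set (↥(Y.image unc) → F))) := by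
    refine LinearIndependent.of_comp (Submodule.subtype _) ?_
    exact hind
  have h4 := h3.fintype_card_le_finrank
  rw [Fintype.card_coe] at h4
  exact h4.trans (finrank_span_finset_le_card B)

end H80SP
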