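import Pool.Agent.H58.LM.Dag
import Pool.Agent.H80.SP.Krn
import Pool.Agent.H18.SPN.Dec

/-! A gate which computes a span programme. -/

set_option autoImplicit false
set_option linter.unusedSectionVars false

namespace H80SP

open Finset
open Pool.Agent.H58.LM (Sys Live Par Lb Sm lab live_lab live_of_agree lab_agree card_lb_le card_slice card_L_le err_nonneg err)
open Pool.Agent.H58.LG (zz Spread slice)

variable {ι α : Type*} [Fintype ι] [DecidableEq ι] [Fintype α] [DecidableEq α] {D : ℕ} {s C N : ℕ}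

/-- The relation between a span programme and the gates before it. -/
def SpanRel (R : ℕ) (vx : Fin s → (ι → α) → ℝ) (vy : Fin s → (ι → α → Bool) → ℝ) (i : Fin s) : Prop :=
  ∀ (X : Finset (ι → α)) (Y : Finset (ι → α → Bool)), X.Nonempty → Y.Nonempty →
    (∀ x ∈ X, ∀ y ∈ Y, vy i y < vx i x) →
    ∃ (F : Type) (_ : Field F) (num : ℕ) (c : Fin num → (ι → α) → F) (e : Fin num → (ι → α → Bool) → F)
      (j : Fin num → Fin s) (τ : Fin num → ℝ), (2 : F) ≠ 0 ∧ num ≤ R ∧ (∀ r, j r < i) ∧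
      (∀ r, ∀ x ∈ X, c r x ≠ 0 → τ r ≤ vx (j r) x) ∧ (∀ r, ∀ y ∈ Y, e r y ≠ 0 → vy (j r) y < τ r) ∧
      ∀ x ∈ X, ∀ y ∈ Y, ∑ r, c r x * e r y = 1

theorem span_num {η a b N W Z C T δ : ℝ} (hη : 0 < η) (ha : 0 < a) (hb : 0 ≤ b) (hN : 0 ≤ N) (hC : 0 ≤ C)
    (hW : 1 ≤ W) (hZ : 1 ≤ Z) (hT : 1 ≤ T) (h8 : η * a < 2 * (N * W * Z) * b)
    (h9 : T * (C + (N + 2) * W) * Z ^ 3 * (1 + (N + 3) * W) ^ 2 * b ≤ δ ^ 2 * (η / (2 * (N + 1))) * a)
    (hδ0 : 0 ≤ δ) (hδ1 : δ < 1 / 4) : False := by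
  have hδ2 : δ ^ 2 ≤ 1 := by nlinarith
  have hδ3 : δ ^ 2 ≤ 1 / 16 := by nlinarith
  have h10 : δ ^ 2 * (η / (2 * (N + 1))) * a ≤ 1 / 32 * η * a := by
    refine mul_le_mul_of_nonneg_right ?_ ha.le
    have e1 : η / (2 * (N + 1)) ≤ η / 2 := by
      refine div_le_div_of_nonneg_left hη.le (by norm_num) ?_
      linarith
    have e2 : 0 ≤ η / (2 * (N + 1)) := by positivity
    calc δ ^ 2 * (η / (2 * (N + 1))) ≤ 1 / 16 * (η / 2) := mul_le_mul hδ3 e1 e2 (by norm_num)
      _ = 1 / 32 * η := by ring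
  have h11 : N * W * Z * b ≤ T * (C + (N + 2) * W) * Z ^ 3 * (1 + (N + 3) * W) ^ 2 * b := by
    refine mul_le_mul_of_nonneg_right ?_ hb
    have hW0 : 0 ≤ W := by linarith
    have hZ0 : 0 ≤ Z := by linarith
    have e0 : 0 ≤ N * W := mul_nonneg hN hW0
    have e2 : N * W ≤ C + (N + 2) * W := by
      have : (N + 2) * W = N * W + 2 * W := by ring
      linarith
    have e3 : Z ≤ Z ^ 3 := by
      calc Z = Z ^ 1 := (pow_one Z).symm
        _ ≤ Z ^ 3 := pow_le_pow_right₀ hZ (by norm_num)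
    have e4 : (1 : ℝ) ≤ (1 + (N + 3) * W) ^ 2 := by
      refine one_le_pow₀ ?_
      have : (N + 3) * W = N * W + 3 * W := by ring
      linarith
    calc N * W * Z = 1 * (N * W) * Z * 1 := by ring
      _ ≤ T * (C + (N + 2) * W) * Z ^ 3 * (1 + (N + 3) * W) ^ 2 := by gcongr
  have h12 : 0 < η * a := mul_pos hη ha
  linarith

/-- a span programme -/
theorem node_span (P : Par (Fintype.card ι) (Fintype.card α) s C N D) (A : Sys ι D) {R : ℕ} (hN : R ≤ N)
    {I : Finset ι} (hI : I.card ≤ P.d) {x0 : ι → α} (X : Finset (ι → α)) (hXne : X.Nonempty)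
    (hX0 : ∀ x ∈ X, ∀ i ∈ I, x i = x0 i)
    (hXs : Spread I P.κ X.card (fun x => if x ∈ X then 1 else 0))
    (hXη : P.η * Fintype.card α ^ Fintype.card ι ≤ X.card * Fintype.card α ^ I.card)
    (Y : Finset (ι → α → Bool)) (hYne : Y.Nonempty) (hYI : ∀ y ∈ Y, Live A I (zz x0 y))
    (hY : (Fintype.card (ι → α → Bool) : ℝ) ≤ 2 ^ P.t0 * Y.card)
    (vx : Fin s → (ι → α) → ℝ) (vy : Fin s → (ι → α → Bool) → ℝ) (i : Fin s)
    (hrel : SpanRel R vx vy i) (hXY : ∀ x ∈ X, ∀ y ∈ Y, vy i y < vx i x)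
    (hdead : ∀ j, j < i → ∀ x ∈ X, ∃ J : Finset ι, J.card ≤ P.d ∧ ∀ y ∈ Y, vy j y < vx j x →
      ¬ Live A J (zz x y)) : False := by
  classical
  obtain ⟨F, hF, num, c, e, j, τ, h2, hnum, hji, hc, he, hone⟩ := hrel X Y hXne hYne hXY
  have hm1 := P.m_one
  have hm := P.m_pos
  have hα : 0 < Fintype.card α := by exact_mod_cast hm
  -- the dead sets
  have hJ : ∀ r x, ∃ J : Sm ι P.d, (x ∈ X → ∀ y ∈ Y, vy (j r) y < vx (j r) x → ¬ Live A J.1 (zz x y)) := by
    intro r x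
    by_cases h : x ∈ X
    · obtain ⟨J, h1, h2⟩ := hdead (j r) (hji r) x h
      exact ⟨⟨J, h1⟩, fun _ => h2⟩
    · exact ⟨⟨∅, by simp⟩, fun h1 => absurd h1 h⟩
  choose Jj hJj using hJ
  -- the most popular pattern
  obtain ⟨pt, hpt⟩ : ∃ pt : (ι → α → Bool) → ι → Bool, ∀ y, pt y = fun i => if i ∈ I then y i (x0 i) else false := ⟨_, fun _ => rfl⟩
  have hmaps : ∀ y ∈ Y, pt y ∈ slice I (fun _ => false) := by
    intro y _
    rw [Pool.Agent.H58.LG.mem_slice]
    intro i hi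
    rw [hpt]
    exact if_neg hi
  obtain ⟨z0, -, hz0⟩ : ∃ z ∈ slice I (fun _ : ι => false), Y.card ≤ 2 ^ I.card * (Y.filter fun y => pt y = z).card := by
    have hne : (slice I (fun _ : ι => false)).Nonempty := by
      obtain ⟨y, hy⟩ := hYne
      exact ⟨_, hmaps y hy⟩
    obtain ⟨z, hz, hmax⟩ := exists_max_image (slice I (fun _ : ι => false)) (fun z => (Y.filter fun y => pt y = z).card) hne
    refine ⟨z, hz, ?_⟩
    rw [card_eq_sum_card_fiberwise (f := pt) (s := Y) (t := slice I (fun _ : ι => false)) hmaps]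
    refine (sum_le_sum hmax).trans ?_
    rw [sum_const, smul_eq_mul, card_slice, Fintype.card_bool]
  obtain ⟨Y0, hY0⟩ : ∃ Y0, Y0 = Y.filter fun y => pt y = z0 := ⟨_, rfl⟩
  rw [← hY0] at hz0
  have hY0Y : ∀ y ∈ Y0, y ∈ Y := by
    intro y hy
    rw [hY0] at hy
    exact (mem_filter.1 hy).1
  have hY0I : ∀ y ∈ Y0, ∀ i ∈ I, y i (x0 i) = z0 i := by
    intro y hy i hi
    rw [hY0] at hy
    have h3 := (mem_filter.1 hy).2
    rw [← h3, hpt]
    simp only [if_pos hi]
  have hY0ne : Y0.Nonempty := by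
    rw [← card_pos]
    have := card_pos.2 hYne
    by_contra hcon
    have h3 : Y0.card = 0 := by omega
    rw [h3, mul_zero] at hz0
    omega
  have hl : Live A I z0 := by
    obtain ⟨y, hy⟩ := hY0ne
    refine (Pool.Agent.H58.LM.Live.congr fun i hi => ?_).mp (hYI y (hY0Y y hy))
    exact hY0I y hy i hi
  -- the rank bound
  have hdD := P.hdD
  have h3 := span_card (F := F) h2 A (I := I) (by omega) hX0 Y0 hY0I hl (R := Fin num × Lb ι α P.d x0)
    (fun q => q.2.1.1) (fun q => q.2.1.2) (fun q => q.2.2.1.trans (by omega))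
    (fun q x => if lab x0 x (Jj q.1 x) = q.2 then c q.1 x else 0)
    (fun q y => if Live A q.2.1.1 (zz q.2.1.2 y) then 0 else e q.1 y)
    (fun q x _ hq => by
      have h4 : lab x0 x (Jj q.1 x) = q.2 := by
        by_contra hcon
        rw [if_neg hcon] at hq
        exact hq rfl
      rw [← h4]
      exact lab_agree x0 x (Jj q.1 x))
    (fun q y _ hq => by
      intro hl'
      rw [if_pos hl'] at hq
      exact hq rfl)
    (fun x hx y hy => by
      rw [Fintype.sum_prod_type, ← hone x hx y (hY0Y y hy)]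
      refine sum_congr rfl fun r _ => ?_
      simp only [ite_mul, zero_mul, sum_ite_eq, mem_univ, if_true]
      by_cases hcr : c r x = 0
      · rw [hcr, zero_mul, zero_mul]
      by_cases her : e r y = 0
      · rw [her, mul_zero, ite_self, mul_zero]
      have h5 : ¬ Live A (lab x0 x (Jj r x)).1.1 (zz (lab x0 x (Jj r x)).1.2 y) := by
        rw [live_lab]
        refine hJj r x hx y (hY0Y y hy) ?_
        exact lt_of_lt_of_le (he r y (hY0Y y hy) her) (hc r x hx hcr)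
      rw [if_neg h5])
    hα
  -- most columns are standard
  have hk1 : 1 ≤ Fintype.card ι := by
    have := P.hDk
    omega
  have ht0 : P.t0 + I.card ≤ P.p := by
    have h4 := P.ht
    have h5 : 2 ^ (P.t0 + I.card) ≤ 2 ^ P.t := by
      have h6 : 2 ≤ 1 + Fintype.card ι * Fintype.card α := by
        have := Nat.mul_le_mul hk1 hα
        omega
      have h7 : 2 ^ I.card ≤ (1 + Fintype.card ι * Fintype.card α) ^ (P.d + P.ds) :=
        (Nat.pow_le_pow_right (by norm_num) (by omega)).trans (Nat.pow_le_pow_left h6 _)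
      have h8 : 1 ≤ (1 + Fintype.card ι * Fintype.card α) ^ (P.d + P.ds) := Nat.one_le_pow _ _ (by omega)
      calc 2 ^ (P.t0 + I.card) = 1 * 2 ^ I.card * 2 ^ P.t0 := by rw [pow_add]; ring
        _ ≤ 4 * ((N + 1) * (1 + Fintype.card ι * Fintype.card α) ^ (P.d + P.ds)) ^ 2 * 2 ^ P.t0 := by
            refine Nat.mul_le_mul_right _ (Nat.mul_le_mul (by norm_num) (h7.trans ?_))
            have h9 : (1 + Fintype.card ι * Fintype.card α) ^ (P.d + P.ds) ≤ (N + 1) * (1 + Fintype.card ι * Fintype.card α) ^ (P.d + P.ds) :=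
              Nat.le_mul_of_pos_left _ (by omega)
            rw [sq]
            exact h9.trans (Nat.le_mul_of_pos_left _ (by positivity))
        _ ≤ _ := h4
    have h6 := (Nat.pow_le_pow_iff_right (by norm_num : 1 < 2)).mp h5
    have := P.htp
    omega
  have hcard : (Fintype.card (ι → α → Bool) : ℝ) ≤ 2 ^ P.p * (Std F (Y0.image unc)).card := by
    have h4 : Y0.card ≤ (Std F (Y0.image unc)).card := by
      have h5 := card_le_Std (F := F) h2 (Y0.image unc)
      rwa [card_image_of_injective _ unc_injective] at h5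
    have h5 : (Y0.card : ℝ) ≤ (Std F (Y0.image unc)).card := by exact_mod_cast h4
    have h6 : (Y.card : ℝ) ≤ 2 ^ I.card * Y0.card := by exact_mod_cast hz0
    calc (Fintype.card (ι → α → Bool) : ℝ) ≤ 2 ^ P.t0 * Y.card := hY
      _ ≤ 2 ^ P.t0 * (2 ^ I.card * Y0.card) := mul_le_mul_of_nonneg_left h6 (by positivity)
      _ = 2 ^ (P.t0 + I.card) * Y0.card := by rw [pow_add]; ring
      _ ≤ 2 ^ P.p * (Std F (Y0.image unc)).card :=
        mul_le_mul (pow_le_pow_right₀ (by norm_num) ht0) h5 (Nat.cast_nonneg _) (by positivity)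
  have hgt : ∀ x : ι → α, gs I x = gt I x := by
    intro x
    unfold gs gt gr
    rw [filter_notMem_eq_sdiff]
  have h4 := std_many P.hp hXne hX0 P.hκ.le hXs P.hh0 P.hh (P.hρ.trans P.hρ1) (Std F (Y0.image unc))
    (fun S hS T hT => Std_down hT hS) hcard
  simp only [hgt] at h4
  have h5 := card_filter_add_card_filter_not (s := X) (fun x => gt I x ∈ Std F (Y0.image unc))
  have h6 : X.card < 2 * (Fintype.card (Fin num × Lb ι α P.d x0) * (A.L.card * Fintype.card α ^ (Fintype.card ι - (D + 1)))) := by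
    omega
  -- numbers
  obtain ⟨m, hmd⟩ : ∃ m : ℝ, m = Fintype.card α := ⟨_, rfl⟩
  obtain ⟨k, hkd⟩ : ∃ k : ℝ, k = Fintype.card ι := ⟨_, rfl⟩
  obtain ⟨W, hWd⟩ : ∃ W : ℝ, W = (1 + k * m) ^ (P.d + P.ds) := ⟨_, rfl⟩
  obtain ⟨Z, hZd⟩ : ∃ Z : ℝ, Z = (1 + k) ^ D := ⟨_, rfl⟩
  have hk0 : 0 ≤ k := by rw [hkd]; exact Nat.cast_nonneg _
  have hm1' : 1 ≤ m := by rw [hmd]; exact hm1
  have hm0 : 0 < m := by linarith
  have hW1 : 1 ≤ W := by
    rw [hWd]
    refine one_le_pow₀ ?_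
    have := mul_nonneg hk0 hm0.le
    linarith
  have hZ1 : 1 ≤ Z := by
    rw [hZd]
    exact one_le_pow₀ (by linarith)
  have hN0 : (0 : ℝ) ≤ N := Nat.cast_nonneg _
  have hC0 : (0 : ℝ) ≤ C := Nat.cast_nonneg _
  have hη := P.hη
  have h7 : (X.card : ℝ) < 2 * (N * W * (Z * m ^ (Fintype.card ι - (D + 1)))) := by
    have h8 : (X.card : ℝ) < 2 * (((num : ℝ) * (Fintype.card (Lb ι α P.d x0) : ℝ)) * ((A.L.card : ℝ) * m ^ (Fintype.card ι - (D + 1)))) := by
      rw [hmd]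
      rw [Fintype.card_prod, Fintype.card_fin] at h6
      exact_mod_cast h6
    refine lt_of_lt_of_le h8 ?_
    have e1 : (num : ℝ) ≤ N := by exact_mod_cast hnum.trans hN
    have e2 : (Fintype.card (Lb ι α P.d x0) : ℝ) ≤ W := by
      have e3 : (Fintype.card (Lb ι α P.d x0) : ℝ) ≤ (1 + k * m) ^ P.d := by
        rw [hkd, hmd]
        exact_mod_cast card_lb_le P.d x0
      refine e3.trans ?_
      rw [hWd]
      refine pow_le_pow_right₀ ?_ (by omega)
      have := mul_nonneg hk0 hm0.le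
      linarith
    have e3 : (A.L.card : ℝ) ≤ Z := by
      rw [hZd, hkd]
      exact card_L_le A
    gcongr
  have h8 : P.η * m ^ (D + 1) < 2 * (N * W * Z) * m ^ (P.d + P.ds) := by
    have e1 : m ^ Fintype.card ι = m ^ (Fintype.card ι - (D + 1)) * m ^ (D + 1) := by
      rw [← pow_add]
      congr 1
      have := P.hDk
      omega
    have e2 : m ^ I.card ≤ m ^ (P.d + P.ds) := pow_le_pow_right₀ hm1' (by omega)
    have e3 : P.η * m ^ Fintype.card ι ≤ X.card * m ^ I.card := by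
      rw [hmd]
      exact hXη
    have e4 : 0 < m ^ (Fintype.card ι - (D + 1)) := by positivity
    have e5 : P.η * m ^ (D + 1) * m ^ (Fintype.card ι - (D + 1)) < 2 * (N * W * Z) * m ^ (P.d + P.ds) * m ^ (Fintype.card ι - (D + 1)) := by
      calc P.η * m ^ (D + 1) * m ^ (Fintype.card ι - (D + 1)) = P.η * m ^ Fintype.card ι := by rw [e1]; ring
        _ ≤ X.card * m ^ I.card := e3
        _ ≤ X.card * m ^ (P.d + P.ds) := mul_le_mul_of_nonneg_left e2 (Nat.cast_nonneg _)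
        _ < 2 * (N * W * (Z * m ^ (Fintype.card ι - (D + 1)))) * m ^ (P.d + P.ds) :=
          mul_lt_mul_of_pos_right h7 (by positivity)
        _ = _ := by ring
    exact lt_of_mul_lt_mul_right e5 e4.le
  have h9 := P.hδ
  rw [← hmd, ← hkd, ← hWd, ← hZd] at h9
  have hδ1 : P.δ < 1 / 4 := by
    have h10 := P.n1
    have h11 := err_nonneg (Fintype.card ι) (P.d + P.ds + P.d') D P.t P.p (ρ := P.ρ)
      (le_trans (mul_nonneg (Nat.cast_nonneg _) P.hh0) P.hρ)
    have hκ1 := P.hκ1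
    have h12 : 0 ≤ (N + 3) * (1 + Fintype.card ι * Fintype.card α : ℝ) ^ (P.d + P.ds) *
        (err (Fintype.card ι) (P.d + P.ds + P.d') D P.t P.p P.ρ + P.κ1 * (1 + Fintype.card ι) ^ D) := by positivity
    linarith
  exact span_num hη (by positivity) (by positivity) hN0 hC0 hW1 hZ1 (one_le_pow₀ (by norm_num)) h8 h9 P.hδ0 hδ1

end H80SP
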